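import Mathlib
import Pool.Agent.Lib.Emb.Final
import Pool.Agent.Lib.Emb.Neg

set_option autoImplicit false

/-!
The embedding problem for Hardy spaces of Dirichlet series.  For a Dirichlet polynomial
`F(s) = ∑_{n ≤ N} a_n n^{-s}` the mean `m = lim (1/2T) ∫_{-T}^{T} |F(it)|^p dt` (the `p`-th power of the
`H^p` norm) exists for every `p ≥ 1`, and for every `p ≥ 1` and `L > 0` the inequality
`∫_τ^{τ+L} |F(1/2+it)|^p dt ≤ C m` holds with a constant `C` independent of `F` and `τ` if and only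
if `p ≥ 2`.
-/

open MeasureTheory Filter Topology

namespace Pool.Agent.Results.MP_1e909f_an.EmbeddingIff

theorem result (p : ℝ) (hp : 1 ≤ p) (L : ℝ) (hL : 0 < L) :
    (∀ (N : ℕ) (a : ℕ → ℂ), ∃ m : ℝ,
      Tendsto (fun T : ℝ => (1 / (2 * T)) * ∫ t in (-T)..T,
        ‖∑ n ∈ Finset.Icc 1 N, a n * (n : ℂ) ^ (-((t : ℂ) * Complex.I))‖ ^ p) atTop (𝓝 m)) ∧
    ((∃ C : ℝ, ∀ (N : ℕ) (a : ℕ → ℂ) (τ m : ℝ),
      Tendsto (fun T : ℝ => (1 / (2 * T)) * ∫ t in (-T)..T,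
        ‖∑ n ∈ Finset.Icc 1 N, a n * (n : ℂ) ^ (-((t : ℂ) * Complex.I))‖ ^ p) atTop (𝓝 m) →
      ∫ t in τ..(τ + L),
        ‖∑ n ∈ Finset.Icc 1 N, a n * (n : ℂ) ^ (-((1 / 2 : ℂ) + (t : ℂ) * Complex.I))‖ ^ p ≤ C * m)
      ↔ 2 ≤ p) := by
  have hp0 : 0 < p := by linarith
  have hb : ∀ (N : ℕ) (a : ℕ → ℂ),
      Tendsto (fun T : ℝ => (1 / (2 * T)) * ∫ t in (-T)..T,
        ‖∑ n ∈ Finset.Icc 1 N, a n * (n : ℂ) ^ (-((t : ℂ) * Complex.I))‖ ^ p) atTop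
        (𝓝 (∫ ω, ‖Emb.FF a N ω‖ ^ p ∂Emb.mu)) := fun N a => Emb.bohr p hp0 a N
  refine ⟨fun N a => ⟨_, hb N a⟩, ?_, ?_⟩
  · rintro ⟨C, hC⟩
    by_contra hlt
    obtain ⟨N, a, τ, h⟩ := Emb.negative p hp (not_le.mp hlt) L hL (max C 1) (by positivity)
    have h1 := hC N a τ _ (hb N a)
    have h2 : 0 ≤ ∫ ω, ‖Emb.FF a N ω‖ ^ p ∂Emb.mu :=
      integral_nonneg fun ω => Real.rpow_nonneg (norm_nonneg _) _
    have h3 : C * ∫ ω, ‖Emb.FF a N ω‖ ^ p ∂Emb.mu ≤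
        max C 1 * ∫ ω, ‖Emb.FF a N ω‖ ^ p ∂Emb.mu :=
      mul_le_mul_of_nonneg_right (le_max_left _ _) h2
    exact absurd (lt_of_le_of_lt h3 h) (not_lt.mpr h1)
  · intro h2
    obtain ⟨C, hC, h⟩ := Emb.main_pos p h2 L hL
    exact ⟨C, fun N a τ m hm => h a N τ m hm⟩

end Pool.Agent.Results.MP_1e909f_an.EmbeddingIff
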